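import Pool.Agent.Y412.SOS.Main

set_option autoImplicit false

/-!
# The cube, and arbitrary real coefficients, in Wagner's sum-of-squares question

Let `e`, `f` be two skew edges of a subgraph isomorphic to the 3-dimensional cube, or two opposite
rim edges of a subgraph isomorphic to the Moebius ladder on eight vertices, of a finite graph. Then
the Rayleigh difference `ΔG{e, f}` is not of the form
`∑_{S ∈ 𝒮} y^S ∑_{j < n} (∑_{A ∈ 𝒜(S)} c j S A * y^{A ∖ S})²`, for any number `n` of squares and any
real coefficients `c j S A`. In particular it is not SOS (`n = 1` and signs that depend on `S` and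
on the cycle `C(S, A)` only). The cube is planar and bipartite.

Both readings of the definition of the family `𝒜(S)` are covered: the literal one (`lit = true`),
and the one in which `A ∪ {e, f}` contains exactly one cycle, and this cycle contains `S ∪ {e, f}`
(`lit = false`).
-/

namespace Pool.Agent.Results.MP_b10ab5_co.CubeNotSOS

open Pool.Agent.H482R3.SOS Pool.Agent.Y412.SOS

theorem result :
    (∀ (V E : Type) [Fintype E] [DecidableEq E] (ends : E → Sym2 V) (κ : Fin 8 ↪ V)
      (ι : Fin 12 ↪ E),
      ((∀ i, ends (ι i) = (cube i).map κ) ∨ (∀ i, ends (ι i) = (ladder i).map κ)) →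
      ∀ lit : Bool, ¬ IsRealSOS lit ends (ι 10) (ι 11) ∧ ¬ IsSOS lit ends (ι 10) (ι 11)) ∧
    (∃ p : Fin 8 → ℝ × ℝ, IsPlaneDrawing cube p) ∧
    (∃ col : Fin 8 → Bool, ∀ i a b, cube i = s(a, b) → col a ≠ col b) := by
  refine ⟨?_, ⟨pt, cube_planar⟩, cube_bipartite⟩
  intro V E _ _ ends κ ι h lit
  have h1 := not_real_sos κ ι h lit
  exact ⟨h1, fun h2 => h1 (IsRealSOS.of_isSOS h2)⟩

end Pool.Agent.Results.MP_b10ab5_co.CubeNotSOS
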